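import Pool.Agent.TH706.GS.Fin

/-!
# The Gap-ETH for algorithms that read the formula linearly many times

The programs are deterministic and non-uniform, with random access to the bits of the formula, with
`s` nodes (a memory of `log s` bits) and with a stack (pushdown store) of unlimited height for
arbitrary symbols; the number of steps is unlimited too. By Cook's theorem (1971) deterministic
machines with a stack and `S` bits of memory, `S ≥ log n`, and without a bound on the time, compute
exactly what is computable in time `2 ^ O(S)`. So the (non-uniform) Gap Exponential Time Hypothesis,
for 3-CNF formulas with `M` clauses, says that programs of this kind that separate the satisfiable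
formulas from those of which every assignment falsifies a constant fraction of the clauses have
`2 ^ Ω(M)` nodes. We prove this for the programs that query the signs of the first literals of some
`n = ⌊M / D⌋` of the clauses at most `k n` times; all the other bits of the formula may be queried
without any restriction. The bound holds for randomised programs with one-sided error too that
accept the satisfiable formulas with probability `2 ^ (- n / D)` only.

(The starting file `MP_87d05f_lc.GapLinearTime` has this for programs without a stack, that is, for
`o(M)` bits of space; `finalSatPD` in the starting files is the case without a gap.)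

Proof. The systems of clauses of bounded width and degree over `n` variables, and the reduction to
3-SAT which preserves gaps, are those of `Pool.Agent.W934.G`: the set of the points which satisfy all
clauses is large, while the set of the points which violate few clauses contains no large
rectangle. A computation with a stack and `k n` queries is cut into a constant number of pieces
which are determined by a few nodes and the answers to their own queries
(`Pool.Agent.W896.PD.blocks`), and the rectangle theorem (Ajtai; Beame, Saks, Sun, Vee;
`Pool.Agent.H554R2.Lin`) is applied to the pieces.
-/

set_option autoImplicit false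

namespace Pool.Agent.Results.MP_87d05f_lc.GapLinearReadsStack

open Pool.Agent.H554R2.Sem Pool.Agent.H554R2.Cnf
open Pool.Agent.W896.PD (PP)

/-- The number of clauses of the instance `w` of 3-SAT which are falsified by the assignment
`α`. -/
noncomputable def falsified {M ℓ : ℕ} (w : Idx M ℓ → Bool) (α : (Fin ℓ → Bool) → Bool) : ℕ :=
  Nat.card {c : Fin M // ∀ p : Fin 3, α (fun j => w (c, p, some j)) ≠ w (c, p, none)}

/-- The formula whose bits are given by `b`, except that the sign of the first literal of the clause
`a i` is `x i`. -/
noncomputable def formula {n M ℓ : ℕ} (a : Fin n ↪ Fin M) (b : Idx M ℓ → Bool) (x : Pt n) :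
    Idx M ℓ → Bool :=
  plug (fun i => sgn ℓ (a i)) b x

/-- The program `P` with a stack outputs `true` on the formula given by `x` after at most `t` queries
to the signs of the first literals of the clauses `a i` (and any number of other queries). -/
def Accepts {n M ℓ : ℕ} (a : Fin n ↪ Fin M) (b : Idx M ℓ → Bool) (P : PP (Idx M ℓ) Bool) (t : ℕ)
    (x : Pt n) : Prop :=
  ∃ L, P.Comp (formula a b x) L true ∧ ∑ i, L.count (sgn ℓ (a i)) ≤ t

/-- For every `k` there is a constant `D` such that for all `n`, `M`, `ℓ` with `D n ≤ M` and
`D n ≤ 2 ^ ℓ` and for any `n` clauses `a i` of the 3-CNF formulas with `M` clauses and variables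
named by words of `ℓ` bits the bits other than the signs of the first literals of these clauses
can be given values `b` such that the following holds for every finite nonempty family `U r` of
programs with a stack, with fewer than `2 ^ ⌊n / D⌋` nodes each. If no `U r` outputs `true` within
`k n` queries to the `n` signs on a formula of the family so obtained of which every assignment
falsifies at least `n / D` clauses, then there is a satisfiable formula of the family on which fewer
than a `2 ^ (- ⌊n / D⌋)` fraction of the programs output `true` within `k n` queries to these
signs. -/
theorem result (k : ℕ) : ∃ D : ℕ, 0 < D ∧ ∀ (n M ℓ : ℕ) (a : Fin n ↪ Fin M), D * n ≤ M →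
    D * n ≤ 2 ^ ℓ → ∃ b : Idx M ℓ → Bool, ∀ (R : Type) [Fintype R] [Nonempty R]
      (U : R → PP (Idx M ℓ) Bool), (∀ r, Fintype.card (U r).State < 2 ^ (n / D)) →
      (∀ (x : Pt n) r, Accepts a b (U r) (k * n) x → ∃ α, D * falsified (formula a b x) α < n) →
      ∃ x : Pt n, Sat3 (formula a b x) ∧
        2 ^ (n / D) * Nat.card {r // Accepts a b (U r) (k * n) x} < Nat.card R := by
  obtain ⟨D, hD, h⟩ := Pool.Agent.TH706.GS.gap_stack k
  refine ⟨D, hD, fun n M ℓ a hM hℓ => ?_⟩
  obtain ⟨b, hb⟩ := h n M ℓ a hM hℓ
  exact ⟨b, fun R _ _ U hU hs => hb R U hU fun r x => hs x r⟩

end Pool.Agent.Results.MP_87d05f_lc.GapLinearReadsStack
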