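import Pool.Agent.TH708.Shr.GapSat

/-!
# Gap satisfiability: circuits which share few unit clauses have exponential size

A circuit gets a CNF formula on `n` variables by the indicator vector of its clauses (of at most three
literals).  It accepts the satisfiable formulas with clauses of at most two literals and rejects those
in which every assignment falsifies at least the fraction `2 ^ (-26)` of the clauses; nothing is
required of it on the other formulas.  The `n` bits of the clauses `(x i)` are tracked: an AND gate
shares the clause `(x i)` if at least two of its inputs depend on its bit.  All predicates of the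
presence of the other clauses are allowed as leaves, negations are at the leaves and the fan-in of
the gates is arbitrary.  If on every path from the output at most `m` tracked clauses are shared, then
`n ≤ 2 ^ 26 (m + log s + 1)` for the number `s` of nodes.

Proof: as for the exact problem (`Pool.Agent.TH708.Shr.Main`) the accepted formulas which use the same
AND gate can be mixed, for a random pairing of the tracked bits.  With a gap a proof tree may ignore
some of the unit clauses, and the mixtures may violate some couples; so formulas of the same class
need not agree on the couples which the gate splits, but they are close to each other there, and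
Hamming balls of small radius are small.
-/

set_option autoImplicit false

namespace Pool.Agent.Results.MP_87d05f_lc.GapSharedClauses

open Pool.Agent.TH708.Shr Pool.Agent.TH708.Shr.Sat

/-- Let `C` be a circuit whose nodes are literals of the presence of the clauses `unit i`
(`lit i true` is true if the clause is absent, `lit i false` if it is present), predicates which do
not depend on the presence of these clauses, and AND and OR gates of any fan-in, such that, among the
formulas with clauses of at most two literals, the node `o` is true for the satisfiable ones and false
for those in which every assignment falsifies at least the fraction `2 ^ (-26)` of the clauses. If at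
most `m` of the clauses `unit i` are shared by AND gates on each path from `o` then
`n ≤ 2 ^ 26 (m + log s + 1)`, for the number `s` of nodes. If the AND-depth of `o` is `dep o` and each
AND gate shares at most `μ` of them, then `n ≤ 2 ^ 26 (μ dep o + log s + 1)`. -/
theorem result {n s : ℕ} (C : Net (Cl n → Bool) n s) (o : Fin s)
    (hfree : ∀ g φ, C g = Kind.fn φ → ∀ x x' : Cl n → Bool,
      (∀ c, (∀ i, c ≠ unit i) → x c = x' c) → (φ x ↔ φ x'))
    (hyes : ∀ x : Cl n → Bool, (∀ c, x c = true → c.1.card ≤ 2) → Satisfiable x →
      Val C x (fun i => !x (unit i)) o)
    (hno : ∀ x : Cl n → Bool, (∀ c, x c = true → c.1.card ≤ 2) → Far x →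
      ¬ Val C x (fun i => !x (unit i)) o) :
    (∀ m, SharesLe C o m → n ≤ 2 ^ 26 * (m + Nat.log 2 s + 1)) ∧
    ∀ (dep : Fin s → ℕ) (μ : ℕ),
      (∀ g l, C g = Kind.and l → ∀ c ∈ l, dep c < dep g) →
      (∀ g l, C g = Kind.or l → ∀ c ∈ l, dep c ≤ dep g) →
      (∀ g, (shared C g).ncard ≤ μ) → n ≤ 2 ^ 26 * (μ * dep o + Nat.log 2 s + 1) :=
  ⟨fun m hm => gap_sat_lower C o hfree hyes hno m hm,
    fun dep μ h1 h2 h3 => gap_sat_lower C o hfree hyes hno _ (sharesLe_of_depth dep μ h1 h2 h3)⟩

end Pool.Agent.Results.MP_87d05f_lc.GapSharedClauses
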