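import Pool.Agent.TH700.GT.Main

/-!
# Gap 3-SAT needs tensor networks of size `2 ^ ((1 - δ) n)`, even with cancellations

A tree tensor network `Net K V W` (`Pool/Agent/TH700/TN/Defs.lean`) has leaves that read one bit
each (with a vector in `K ^ W` for each value of the bit); an inner node combines the vectors of its
two children by an arbitrary bilinear map. It accepts the input `x` if a linear form of the vector
of the root is not zero. The field `K` and the weights are arbitrary, so there may be cancellations.
The tree is arbitrary; if every right child is a leaf then this is a matrix product (a weighted
ordered read-once branching program, for instance a read-once parity program for any order of the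
bits). The size is the number of nodes times the bond dimension `card W`.

For every `δ > 0` there are `D` and `E` such that for all large `n` there is a fixed system of `D n`
triples of distinct variables (so `8 D n` clauses, one for each sign pattern) with the following
property. The input says which of the `8 D n` clauses are selected. Every network which reads every
bit at most once, accepts all satisfiable selections, and rejects all selections such that every
assignment violates more than one in `E` of the selected clauses, has size at least
`2 ^ ((1 - δ) n)`. This holds up to the factor `2 ^ μ` also for random networks which never accept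
such a far selection and accept every satisfiable selection with probability at least `2 ^ (- μ)`
(the deterministic case is `R = Unit`, `μ = 0`).

Conversely the number of satisfying assignments is computed by a linear network over `ℚ` of size
`(16 M - 1) 2 ^ n` which reads every bit once, for every system of `M` triples. So `2 ^ n` is the
right bound, also for a constant gap and for linearly many clauses.

Proof: for an assignment `β` consider the `D n` clauses that it violates. In every tree there is a
node such that nearly all variables occur often enough in the clauses violated by `β` and read below
the node, and also in those read elsewhere. Otherwise the system would have few triples which meet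
three sets of variables which are not small, whereas a random system has many. Mix the selections
of all clauses satisfied by `a` and by `b` at such a node. If `β` violates few clauses of the
mixture then `β` agrees with `a` on nearly all variables or with `b` on nearly all variables, by
expansion, and then with the other one as well. So for a code of assignments the matrix of the
outputs on the mixtures is diagonal, and its rank is at most the bond dimension.
-/

set_option autoImplicit false

namespace Pool.Agent.Results.MP_87d05f_lc.GapTensorNetworks

open Pool.Agent.TH700.TN Pool.Agent.TH700.GT

theorem result :
    (∀ δ : ℝ, 0 < δ → ∃ D E n₀ : ℕ, 1 ≤ D ∧ ∀ n : ℕ, n₀ ≤ n →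
      ∃ e : Fin (D * n) → Fin 3 → Fin n, (∀ i, Function.Injective (e i)) ∧
        ∀ (μ : ℕ) (R : Type) [Fintype R] [Nonempty R] (K W : R → Type) [∀ ρ, Field (K ρ)]
          [∀ ρ, Fintype (W ρ)] (T : ∀ ρ, Net (K ρ) (Fin (D * n) × (Fin 3 → Bool)) (W ρ))
          (a : ∀ ρ, W ρ → K ρ),
          (∀ ρ c, (T ρ).reads c ≤ 1) →
          (∀ ρ x, (T ρ).value (a ρ) x ≠ 0 → ¬ Far E e x) →
          (∀ x, Sat e x → Nat.card R ≤ 2 ^ μ * Nat.card {ρ // (T ρ).value (a ρ) x ≠ 0}) →
          ∃ ρ, (2 : ℝ) ^ ((1 - δ) * n) ≤ 2 ^ μ * ((T ρ).size * Fintype.card (W ρ))) ∧
    (∀ M n : ℕ, 1 ≤ M → ∀ e : Fin M → Fin 3 → Fin n,
      ∃ (T : Net ℚ (Fin M × (Fin 3 → Bool)) (Fin n → Bool)) (a : (Fin n → Bool) → ℚ),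
        T.Linear ∧ (∀ c, T.reads c = 1) ∧ T.size = 16 * M - 1 ∧
          ∀ x, T.value a x ≠ 0 ↔ Sat e x) :=
  ⟨fun _ hδ => main hδ, fun _ _ hM e => upper hM e⟩

end Pool.Agent.Results.MP_87d05f_lc.GapTensorNetworks
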