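import Pool.Agent.TH837.MX.Sat

/-!
# MAX-3SAT for pure dynamic programs: the threshold `7 / 8`

A (max,+) program (a pure dynamic program, a tropical circuit) computes functions of the weights of
the clauses, one after the other; each is an input, a real constant, or the maximum or the sum of
two functions computed before. The `3 n` variables are divided into three groups, and the inputs are
the weights of the `8 n ^ 3` clauses with one variable from each group. We consider programs whose
value never exceeds the largest total weight of clauses which an assignment can satisfy.

The threshold for the approximation ratio is `7 / 8`, the constant of Håstad's theorem. There is a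
program with `64 n ^ 3 + 9` instructions and ratio `7 / 8` (for all nonnegative weights). But if the
value is at least `(7 / 8 + ε) |φ|` for each satisfiable formula `φ` (a set of clauses, which have
weight one, while the others have weight zero) then the program has at least `2 ^ (γ n) - 1`
instructions, where `γ > 0` depends on `ε` only. This is the Gap Exponential Time Hypothesis for
pure dynamic programs, with the best possible gap. It holds for randomised programs with success
probability `2 ^ (- γ n)` too. Trying all assignments is a pure dynamic program with `2 ^ (O n)`
instructions.

Proof. By scaling, the monomials of the program are sets of clauses which can be satisfied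
simultaneously. For an assignment `x` let `φ x` be the set of the clauses an odd number of whose
literals is true under `x`; some monomial contains `(7 / 8 + ε) |φ x|` clauses of `φ x`. The proof
tree is cut into a constant number `K` of pieces with few leaves. Consider a class of assignments
with the same skeleton. Pieces of different members may be exchanged, so the places `1, ..., K` get
disjoint sets `U 1, ..., U K` of clauses. The places where `U k` is large contribute little, since
the pieces are small. Put the pieces of `K` independent members `x 1, ..., x K` of the class
together: some `z` satisfies all these clauses. But for a fixed `z`, and independent random `x k`,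
the number of the clauses in `U k` which are satisfied by `z` and belong to `φ (x k)` for the place
`k` has expectation at most `7 / 16` times the number of all clauses, and an exponential moment
(linear in the variables of one group, when the other groups are fixed) shows that a larger number
has probability at most `exp (- C n)`, with a large constant `C` if all `U k` are small. Hence the
class is a fraction `exp (- n / K)` of all assignments.
-/

set_option autoImplicit false

namespace Pool.Agent.Results.MP_87d05f_lc.SevenEighthsPureDP

open Pool.Agent.TH837.MX

/-- (1) For every `n` a (max,+) program with `64 n ^ 3 + 9` instructions approximates the largest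
total weight of satisfied clauses within `7 / 8`, for all nonnegative weights. (2) For `ε > 0` there
is `γ > 0` such that for all `n`: a randomised (max,+) program whose value is at most the optimum,
and for each satisfiable formula `φ`, with probability at least `2 ^ (- γ n)`, at least
`(7 / 8 + ε) |φ|`, has at least `2 ^ (γ n) - 1` instructions. -/
theorem result :
    (∀ n : ℕ, ∃ f : (Clause n → ℝ) → ℝ, Computes f (64 * n ^ 3 + 9) ∧
      ∀ w : Clause n → ℝ, (∀ c, 0 ≤ w c) → (∃ z : Truth n, f w ≤ ∑ c ∈ sat z, w c) ∧
        ∀ z : Truth n, 7 / 8 * ∑ c ∈ sat z, w c ≤ f w) ∧
    (∀ ε : ℝ, 0 < ε → ε ≤ 1 / 8 → ∃ γ : ℝ, 0 < γ ∧ ∀ (n : ℕ) (R : Type) [Fintype R] [Nonempty R]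
      (f : R → (Clause n → ℝ) → ℝ), Approx (7 / 8 + ε) (2 ^ (-(γ * n))) f →
      ∀ s : ℕ, (∀ r, Computes (f r) s) → (2 : ℝ) ^ (γ * n) ≤ s + 1) :=
  ⟨fun n => ⟨satProg n, satProg_computes n, fun w hw => ⟨satProg_sound w hw, satProg_good w hw⟩⟩,
    fun ε hε hε1 => ⟨satGam ε, satGam_pos hε, fun _ _ _ _ _ hf _ hs =>
      sat_lower hε (by linarith) hf hs⟩⟩

end Pool.Agent.Results.MP_87d05f_lc.SevenEighthsPureDP
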